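import Mathlib

/-!
# Avoidance probability of a random sumset

`D ⊆ [X, 2X)` with `4 n |D| ≤ X`; `A₁` uniform in `[0,X)^n`, `A₂` uniform in `[0,2X)^n`.
Then `A₁ + A₂` avoids `D` with probability at most `exp (-(3/8) n² |D| / (2X))`.
-/

namespace Pool.Agent.LocalCert

open Finset

/-- the `b < U` with `a + b ∈ D` -/
def sh (U : ℕ) (D : Finset ℕ) (a : ℕ) : Finset ℕ := (Finset.range U).filter (fun b => a + b ∈ D)

lemma card_sh {X : ℕ} {D : Finset ℕ} (hD : D ⊆ Finset.Ico X (2 * X)) {a : ℕ} (ha : a < X) :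
    (sh (2 * X) D a).card = D.card := by
  apply Finset.card_bij (fun b _ => a + b)
  · intro b hb
    simp only [sh, mem_filter] at hb
    exact hb.2
  · intro b _ b' _ h
    simpa using h
  · intro z hz
    have h := hD hz
    rw [mem_Ico] at h
    refine ⟨z - a, ?_, by lia⟩
    simp only [sh, mem_filter, mem_range]
    refine ⟨by lia, ?_⟩
    rw [show a + (z - a) = z by lia]
    exact hz

lemma sum_inter_le {X : ℕ} (U : ℕ) (D V : Finset ℕ) :
    ∑ a : Fin X, (sh U D a ∩ V).card ≤ D.card * V.card := by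
  calc ∑ a : Fin X, (sh U D a ∩ V).card
      ≤ ∑ a : Fin X, ∑ b ∈ V, (if (a : ℕ) + b ∈ D then 1 else 0) := by
        apply Finset.sum_le_sum
        intro a _
        rw [Finset.sum_ite, Finset.sum_const_zero, add_zero, Finset.sum_const, smul_eq_mul,
          mul_one]
        apply Finset.card_le_card
        intro b hb
        simp only [sh, mem_inter, mem_filter] at hb ⊢
        exact ⟨hb.2, hb.1.2⟩
    _ = ∑ b ∈ V, ∑ a : Fin X, (if (a : ℕ) + b ∈ D then 1 else 0) := Finset.sum_comm
    _ ≤ ∑ b ∈ V, D.card := by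
        apply Finset.sum_le_sum
        intro b _
        rw [Finset.sum_ite, Finset.sum_const_zero, add_zero, Finset.sum_const, smul_eq_mul,
          mul_one]
        apply Finset.card_le_card_of_injOn (fun a : Fin X => (a : ℕ) + b)
        · intro a ha
          simpa using ha
        · intro a _ a' _ h
          simp only [add_left_inj] at h
          exact Fin.ext h
    _ = D.card * V.card := by simp [mul_comm]

lemma exp_neg_mul_le {t y : ℝ} (h0 : 0 ≤ t) (h1 : t ≤ 1) :
    Real.exp (-(t * y)) ≤ 1 - t * (1 - Real.exp (-y)) := by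
  have h := convexOn_exp.2 (Set.mem_univ (-y)) (Set.mem_univ 0) h0 (sub_nonneg.2 h1) (by ring)
  simp only [smul_eq_mul, mul_zero, add_zero, Real.exp_zero, mul_one] at h
  rw [show -(t * y) = t * -y by ring]
  linarith

lemma exp_neg_le_half {y : ℝ} (h0 : 0 ≤ y) (h1 : y ≤ 1) : Real.exp (-y) ≤ 1 - y / 2 := by
  have h := exp_neg_mul_le (y := 1) h0 h1
  rw [mul_one] at h
  have h2 : Real.exp (-1) ≤ 1 / 2 := by
    rw [Real.exp_neg, one_div]
    apply inv_anti₀ (by norm_num)
    have := Real.add_one_le_exp (1 : ℝ)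
    linarith
  nlinarith

/-- union of the shifts -/
def V (U : ℕ) (D : Finset ℕ) {m X : ℕ} (A : Fin m → Fin X) : Finset ℕ :=
  Finset.univ.biUnion (fun i => sh U D (A i))

lemma card_V_le {X m : ℕ} {D : Finset ℕ} (hD : D ⊆ Finset.Ico X (2 * X)) (A : Fin m → Fin X) :
    (V (2 * X) D A).card ≤ m * D.card := by
  calc (V (2 * X) D A).card ≤ ∑ i : Fin m, (sh (2 * X) D (A i)).card := Finset.card_biUnion_le
    _ = ∑ i : Fin m, D.card := by
        apply Finset.sum_congr rfl
        intro i _
        exact card_sh hD (A i).2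
    _ = m * D.card := by simp

lemma V_cons {U X m : ℕ} {D : Finset ℕ} (a : Fin X) (A : Fin m → Fin X) :
    V U D (Fin.cons a A : Fin (m + 1) → Fin X) = sh U D a ∪ V U D A := by
  ext x
  simp only [V, mem_biUnion, mem_union, mem_univ, true_and]
  constructor
  · rintro ⟨i, hi⟩
    refine Fin.cases ?_ ?_ i (motive := fun i => x ∈ sh U D ((Fin.cons a A : Fin (m + 1) → Fin X) i)
      → (x ∈ sh U D a ∨ ∃ j, x ∈ sh U D (A j))) hi
    · intro h; left; simpa using h
    · intro j h; right; exact ⟨j, by simpa using h⟩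
  · rintro (h | ⟨j, h⟩)
    · exact ⟨0, by simpa using h⟩
    · exact ⟨j.succ, by simpa using h⟩

lemma step_aux {X : ℕ} (x : Fin X → ℝ) {d l : ℝ} (hd : 0 < d) (hx0 : ∀ a, 0 ≤ x a)
    (hx1 : ∀ a, x a ≤ d) (hs : (3 : ℝ) / 4 * (X * d) ≤ ∑ a, x a) (hl : 0 ≤ l) (hld : l * d ≤ 1) :
    ∑ a : Fin X, Real.exp (-(l * x a)) ≤ X * Real.exp (-(3 / 8 * (l * d))) := by
  have hpt : ∀ a : Fin X, Real.exp (-(l * x a)) ≤
      1 - x a / d * (1 - Real.exp (-(l * d))) := by
    intro a
    have h1 := exp_neg_mul_le (t := x a / d) (y := l * d)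
      (div_nonneg (hx0 a) hd.le) ((div_le_one hd).2 (hx1 a))
    have e : x a / d * (l * d) = l * x a := by
      rw [mul_comm l d, ← mul_assoc, div_mul_cancel₀ _ hd.ne', mul_comm]
    rw [e] at h1
    exact h1
  have hld0 : 0 ≤ l * d := mul_nonneg hl hd.le
  have hhalf : l * d / 2 ≤ 1 - Real.exp (-(l * d)) := by
    have := exp_neg_le_half (y := l * d) hld0 hld
    linarith
  calc ∑ a : Fin X, Real.exp (-(l * x a))
      ≤ ∑ a : Fin X, (1 - x a / d * (1 - Real.exp (-(l * d)))) :=
        Finset.sum_le_sum (fun a _ => hpt a)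
    _ = X - (∑ a : Fin X, x a) / d * (1 - Real.exp (-(l * d))) := by
        rw [Finset.sum_sub_distrib, ← Finset.sum_mul, Finset.sum_div]
        simp only [Finset.sum_const, Finset.card_univ, Fintype.card_fin, nsmul_eq_mul, mul_one]
    _ ≤ X - (3 / 4 * X) * (l * d / 2) := by
        have h1 : (3 / 4 : ℝ) * X ≤ (∑ a : Fin X, x a) / d := by
          rw [le_div_iff₀ hd]
          linarith
        have h2 : 0 ≤ l * d / 2 := by linarith
        have h3 : (3 / 4 * X : ℝ) * (l * d / 2) ≤
            (∑ a : Fin X, x a) / d * (1 - Real.exp (-(l * d))) := by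
          apply mul_le_mul h1 hhalf h2
          exact div_nonneg (Finset.sum_nonneg (fun a _ => hx0 a)) hd.le
        linarith
    _ = X * (-(3 / 8 * (l * d)) + 1) := by ring
    _ ≤ X * Real.exp (-(3 / 8 * (l * d))) :=
        mul_le_mul_of_nonneg_left (Real.add_one_le_exp _) (Nat.cast_nonneg X)

lemma step {X : ℕ} {D : Finset ℕ} (hD : D ⊆ Finset.Ico X (2 * X)) (W : Finset ℕ)
    (hW : 4 * W.card ≤ X) {l : ℝ} (hl : 0 ≤ l) (hld : l * (D.card : ℝ) ≤ 1) :
    ∑ a : Fin X, Real.exp (-(l * ((sh (2 * X) D a \ W).card : ℝ))) ≤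
      X * Real.exp (-(3 / 8 * (l * (D.card : ℝ)))) := by
  rcases Nat.eq_zero_or_pos D.card with h0 | hpos
  · rw [h0]
    calc ∑ a : Fin X, Real.exp (-(l * ((sh (2 * X) D a \ W).card : ℝ)))
        ≤ ∑ a : Fin X, (1 : ℝ) := by
          apply Finset.sum_le_sum
          intro a _
          rw [Real.exp_le_one_iff, neg_nonpos]
          exact mul_nonneg hl (Nat.cast_nonneg _)
      _ = X := by
          rw [Finset.sum_const, Finset.card_univ, Fintype.card_fin, nsmul_eq_mul, mul_one]
      _ = X * Real.exp (-(3 / 8 * (l * ((0 : ℕ) : ℝ)))) := by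
          rw [Nat.cast_zero, mul_zero, mul_zero, neg_zero, Real.exp_zero, mul_one]
  have hcard : ∀ a : Fin X, (sh (2 * X) D a \ W).card + (sh (2 * X) D a ∩ W).card = D.card := by
    intro a
    have h1 := Finset.card_sdiff_add_card_inter (sh (2 * X) D a) W
    rw [card_sh hD a.2] at h1
    exact h1
  have hS1 : ∑ a : Fin X, (sh (2 * X) D a \ W).card + ∑ a : Fin X, (sh (2 * X) D a ∩ W).card =
      X * D.card := by
    rw [← Finset.sum_add_distrib, Finset.sum_congr rfl (fun a _ => hcard a), Finset.sum_const,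
      Finset.card_univ, Fintype.card_fin, smul_eq_mul]
  have hS2 : ∑ a : Fin X, (sh (2 * X) D a ∩ W).card ≤ D.card * W.card :=
    sum_inter_le (X := X) (2 * X) D W
  have hS3 : 4 * (D.card * W.card) ≤ X * D.card := by
    calc 4 * (D.card * W.card) = (4 * W.card) * D.card := by ring
      _ ≤ X * D.card := Nat.mul_le_mul_right _ hW
  have h5 : 3 * (X * D.card) ≤ 4 * ∑ a : Fin X, (sh (2 * X) D a \ W).card := by lia
  have h6 : (3 : ℝ) * (X * D.card) ≤ 4 * ∑ a : Fin X, ((sh (2 * X) D a \ W).card : ℝ) := by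
    exact_mod_cast h5
  have h7 : (3 : ℝ) / 4 * (X * D.card) ≤ ∑ a : Fin X, ((sh (2 * X) D a \ W).card : ℝ) := by
    linarith
  have h8 : ∀ a : Fin X, ((sh (2 * X) D a \ W).card : ℝ) ≤ D.card := by
    intro a
    have := hcard a
    exact_mod_cast (by lia : (sh (2 * X) D a \ W).card ≤ D.card)
  exact step_aux (fun a : Fin X => ((sh (2 * X) D a \ W).card : ℝ)) (by exact_mod_cast hpos)
    (fun a => Nat.cast_nonneg _) h8 h7 hl hld

lemma sum_exp_le {X n : ℕ} {D : Finset ℕ} (hD : D ⊆ Finset.Ico X (2 * X))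
    (hn : 4 * (n * D.card) ≤ X) {l : ℝ} (hl : 0 ≤ l) (hld : l * D.card ≤ 1) (m : ℕ) (hm : m ≤ n) :
    ∑ A : Fin m → Fin X, Real.exp (-(l * ((V (2 * X) D A).card : ℝ))) ≤
      (X * Real.exp (-(3 / 8 * (l * D.card)))) ^ m := by
  induction m with
  | zero =>
    simp only [pow_zero]
    rw [Fintype.sum_unique]
    simp [V]
  | succ m ih =>
    have ih' := ih (by lia)
    rw [← (Fin.consEquiv (fun _ : Fin (m + 1) => Fin X)).sum_comp, Fintype.sum_prod_type_right]
    calc ∑ A : Fin m → Fin X, ∑ a : Fin X, Real.exp (-(l *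
          ((V (2 * X) D ((Fin.consEquiv (fun _ : Fin (m + 1) => Fin X)) (a, A))).card : ℝ)))
        = ∑ A : Fin m → Fin X, Real.exp (-(l * ((V (2 * X) D A).card : ℝ))) *
            ∑ a : Fin X, Real.exp (-(l * ((sh (2 * X) D a \ V (2 * X) D A).card : ℝ))) := by
          apply Finset.sum_congr rfl
          intro A _
          rw [Finset.mul_sum]
          apply Finset.sum_congr rfl
          intro a _
          rw [← Real.exp_add]
          congr 1
          have h1 : (Fin.consEquiv (fun _ : Fin (m + 1) => Fin X)) (a, A) =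
            (Fin.cons a A : Fin (m + 1) → Fin X) := rfl
          rw [h1, V_cons, ← Finset.sdiff_union_self_eq_union,
            Finset.card_union_of_disjoint Finset.sdiff_disjoint]
          push_cast
          ring
      _ ≤ ∑ A : Fin m → Fin X, Real.exp (-(l * ((V (2 * X) D A).card : ℝ))) *
            (X * Real.exp (-(3 / 8 * (l * D.card)))) := by
          apply Finset.sum_le_sum
          intro A _
          apply mul_le_mul_of_nonneg_left _ (Real.exp_nonneg _)
          apply step hD _ _ hl hld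
          have h1 := card_V_le hD A
          have h2 : m * D.card ≤ n * D.card := Nat.mul_le_mul_right _ (by lia)
          lia
      _ = (∑ A : Fin m → Fin X, Real.exp (-(l * ((V (2 * X) D A).card : ℝ)))) *
            (X * Real.exp (-(3 / 8 * (l * D.card)))) := by rw [Finset.sum_mul]
      _ ≤ (X * Real.exp (-(3 / 8 * (l * D.card)))) ^ m *
            (X * Real.exp (-(3 / 8 * (l * D.card)))) := by
          apply mul_le_mul_of_nonneg_right ih'
          positivity
      _ = _ := (pow_succ _ _).symm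

/-- the pair of arrays avoids `D` -/
def Avoids {n X U : ℕ} (D : Finset ℕ) (p : (Fin n → Fin X) × (Fin n → Fin U)) : Prop :=
  ∀ i j, (p.1 i : ℕ) + (p.2 j : ℕ) ∉ D

open Classical in
/-- The avoidance estimate. -/
theorem card_avoid_le {X n : ℕ} {D : Finset ℕ} (hD : D ⊆ Finset.Ico X (2 * X)) (hX : 0 < X)
    (hn : 4 * (n * D.card) ≤ X) :
    ((Finset.univ.filter (fun p : (Fin n → Fin X) × (Fin n → Fin (2 * X)) => Avoids D p)).card : ℝ)
      ≤ (X : ℝ) ^ n * (2 * X) ^ n *
        Real.exp (-(3 / 8 * ((n : ℝ) ^ 2 * D.card / (2 * X)))) := by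
  have hX' : (0 : ℝ) < X := by exact_mod_cast hX
  set l : ℝ := n / (2 * X) with hl
  have hl0 : 0 ≤ l := by positivity
  have hld : l * D.card ≤ 1 := by
    rw [hl, div_mul_eq_mul_div, div_le_one (by positivity)]
    have : (4 : ℝ) * (n * D.card) ≤ X := by exact_mod_cast hn
    have h0 : (0 : ℝ) ≤ (n : ℝ) * D.card := by positivity
    linarith
  have hfib : ((Finset.univ.filter
      (fun p : (Fin n → Fin X) × (Fin n → Fin (2 * X)) => Avoids D p)).card : ℝ) =
      ∑ A : Fin n → Fin X, ((Finset.univ.filter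
        (fun B : Fin n → Fin (2 * X) => Avoids D (A, B))).card : ℝ) := by
    rw [← Nat.cast_sum]
    congr 1
    rw [Finset.card_filter, Fintype.sum_prod_type]
    apply Finset.sum_congr rfl
    intro A _
    rw [Finset.card_filter]
  rw [hfib]
  have hone : ∀ A : Fin n → Fin X, ((Finset.univ.filter
        (fun B : Fin n → Fin (2 * X) => Avoids D (A, B))).card : ℝ) ≤
        (2 * X) ^ n * Real.exp (-(l * ((V (2 * X) D A).card : ℝ))) := by
    intro A
    -- the set of allowed values
    set G : Finset (Fin (2 * X)) := Finset.univ.filter (fun b => (b : ℕ) ∉ V (2 * X) D A) with hG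
    have h1 : (Finset.univ.filter
        (fun B : Fin n → Fin (2 * X) => Avoids D (A, B))).card ≤ G.card ^ n := by
      have h2 : (Finset.univ.filter (fun B : Fin n → Fin (2 * X) => Avoids D (A, B))) ⊆
          Fintype.piFinset (fun _ : Fin n => G) := by
        intro B hB
        rw [Fintype.mem_piFinset]
        intro j
        rw [mem_filter] at hB
        rw [hG, mem_filter]
        refine ⟨mem_univ _, ?_⟩
        intro hV
        simp only [V, mem_biUnion, mem_univ, true_and, sh, mem_filter] at hV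
        obtain ⟨i, _, hi⟩ := hV
        exact hB.2 i j hi
      calc _ ≤ (Fintype.piFinset (fun _ : Fin n => G)).card := Finset.card_le_card h2
        _ = G.card ^ n := by rw [Fintype.card_piFinset]; simp
    have h3 : (G.card : ℝ) = 2 * X - ((V (2 * X) D A).card : ℝ) := by
      have h4 : G.card + (V (2 * X) D A).card = 2 * X := by
        have h5 : (Finset.univ.filter (fun b : Fin (2 * X) => (b : ℕ) ∈ V (2 * X) D A)).card =
            (V (2 * X) D A).card := by
          apply Finset.card_bij (fun (b : Fin (2 * X)) _ => (b : ℕ))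
          · intro b hb
            simpa using hb
          · intro b _ b' _ h
            exact Fin.ext h
          · intro b hb
            have hb' : b < 2 * X := by
              simp only [V, mem_biUnion, mem_univ, true_and, sh, mem_filter, mem_range] at hb
              obtain ⟨_, h, _⟩ := hb
              exact h
            exact ⟨⟨b, hb'⟩, by simpa using hb, rfl⟩
        have h6 := Finset.card_filter_add_card_filter_not (s := (Finset.univ : Finset (Fin (2 * X))))
          (fun b : Fin (2 * X) => (b : ℕ) ∈ V (2 * X) D A)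
        rw [h5, Finset.card_univ, Fintype.card_fin] at h6
        rw [hG]
        lia
      have : (G.card : ℝ) + ((V (2 * X) D A).card : ℝ) = ((2 * X : ℕ) : ℝ) := by exact_mod_cast h4
      push_cast at this
      linarith
    calc ((Finset.univ.filter
        (fun B : Fin n → Fin (2 * X) => Avoids D (A, B))).card : ℝ) ≤ (G.card : ℝ) ^ n := by
          exact_mod_cast h1
      _ ≤ (2 * X * Real.exp (-(((V (2 * X) D A).card : ℝ) / (2 * X)))) ^ n := by
          apply pow_le_pow_left₀ (by positivity)
          rw [h3]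
          have h7 := Real.add_one_le_exp (-(((V (2 * X) D A).card : ℝ) / (2 * X)))
          have h8 : (2 * X : ℝ) * (-(((V (2 * X) D A).card : ℝ) / (2 * X)) + 1) =
              2 * X - ((V (2 * X) D A).card : ℝ) := by
            field_simp
            ring
          rw [← h8]
          apply mul_le_mul_of_nonneg_left h7 (by positivity)
      _ = (2 * X) ^ n * Real.exp (-(l * ((V (2 * X) D A).card : ℝ))) := by
          rw [mul_pow, ← Real.exp_nat_mul, hl]
          congr 2
          field_simp
  calc ∑ A : Fin n → Fin X, ((Finset.univ.filter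
        (fun B : Fin n → Fin (2 * X) => Avoids D (A, B))).card : ℝ)
      ≤ ∑ A : Fin n → Fin X, (2 * X : ℝ) ^ n * Real.exp (-(l * ((V (2 * X) D A).card : ℝ))) :=
        Finset.sum_le_sum (fun A _ => hone A)
    _ = (2 * X : ℝ) ^ n * ∑ A : Fin n → Fin X, Real.exp (-(l * ((V (2 * X) D A).card : ℝ))) := by
        rw [Finset.mul_sum]
    _ ≤ (2 * X : ℝ) ^ n * (X * Real.exp (-(3 / 8 * (l * D.card)))) ^ n := by
        apply mul_le_mul_of_nonneg_left (sum_exp_le hD hn hl0 hld n le_rfl) (by positivity)
    _ = (X : ℝ) ^ n * (2 * X) ^ n *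
        Real.exp (-(3 / 8 * ((n : ℝ) ^ 2 * D.card / (2 * X)))) := by
        have e1 : ((X : ℝ) * Real.exp (-(3 / 8 * (l * D.card)))) ^ n =
            (X : ℝ) ^ n * Real.exp (-(3 / 8 * ((n : ℝ) ^ 2 * D.card / (2 * X)))) := by
          rw [mul_pow ((X : ℝ)), ← Real.exp_nat_mul, hl]
          congr 2
          field_simp
        rw [e1]
        ring

end Pool.Agent.LocalCert
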