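import Pool.Agent.LocalCert.Avoid

/-!
# The counting core

`S` views of the memory, each with values in a finite type `Q`, a header `h : Fin H`, and a
verifier `ref h z s q` looking at `k` views.
-/

namespace Pool.Agent.LocalCert

open Finset

open Classical in
/-- The `z ∈ [X, 2X)` refuted from some `k` of the views. -/
noncomputable def refuted {S k : ℕ} {Q : Type} (X : ℕ)
    (R : ℕ → (Fin k → Fin S) → (Fin k → Q) → Prop) (v : Fin S → Q) : Finset ℕ :=
  (Finset.Ico X (2 * X)).filter (fun z => ∃ s : Fin k → Fin S, R z s (fun i => v (s i)))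

section
variable {n k S X H b m : ℕ} {Q : Type} (hb : 0 < b)

/-- Configurations: block indices, header, contents of the views in the blocks. -/
abbrev Config (k H b m : ℕ) (Q : Type) := (Fin k → Fin m) × Fin H × (Fin k → Fin b → Q)

open Classical in
/-- The numbers refuted inside a configuration. -/
noncomputable def cset (hb : 0 < b) (X : ℕ)
    (ref : Fin H → ℕ → (Fin k → Fin S) → (Fin k → Q) → Prop)
    (c : Config k H b m Q) : Finset ℕ :=
  (Finset.Ico X (2 * X)).filter (fun z => ∃ s : Fin k → Fin S,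
    (∀ i, (s i : ℕ) / b = (c.1 i : ℕ)) ∧
    ref c.2.1 z s (fun i => c.2.2 i ⟨(s i : ℕ) % b, Nat.mod_lt _ hb⟩))

lemma cset_subset (X : ℕ) (ref : Fin H → ℕ → (Fin k → Fin S) → (Fin k → Q) → Prop)
    (c : Config k H b m Q) : cset hb X ref c ⊆ Finset.Ico X (2 * X) := by
  classical
  exact Finset.filter_subset _ _

/-- contents of the blocks of `β` under the view vector `v` -/
noncomputable def content [Nonempty Q] (v : Fin S → Q) (β : Fin k → Fin m) :
    Fin k → Fin b → Q :=
  fun i r => if h : (β i : ℕ) * b + (r : ℕ) < S then v ⟨(β i : ℕ) * b + r, h⟩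
    else Classical.arbitrary Q

lemma refuted_subset [Nonempty Q] (hm : ∀ s : Fin S, (s : ℕ) / b < m)
    (ref : Fin H → ℕ → (Fin k → Fin S) → (Fin k → Q) → Prop) (h : Fin H) (v : Fin S → Q) :
    refuted X (ref h) v ⊆ (Finset.univ : Finset (Fin k → Fin m)).biUnion
      (fun β => cset hb X ref (β, h, content v β)) := by
  classical
  intro z hz
  simp only [refuted, mem_filter] at hz
  obtain ⟨hz1, s, hs⟩ := hz
  rw [mem_biUnion]
  refine ⟨fun i => ⟨(s i : ℕ) / b, hm (s i)⟩, mem_univ _, ?_⟩
  simp only [cset, mem_filter]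
  refine ⟨hz1, s, fun i => rfl, ?_⟩
  have e : (fun i => v (s i)) = (fun i => content (b := b) v (fun i => ⟨(s i : ℕ) / b, hm (s i)⟩) i
      ⟨(s i : ℕ) % b, Nat.mod_lt _ hb⟩) := by
    funext i
    have h1 : (s i : ℕ) / b * b + (s i : ℕ) % b = s i := Nat.div_add_mod' _ _
    have h2 : (s i : ℕ) / b * b + (s i : ℕ) % b < S := by rw [h1]; exact (s i).2
    simp only [content]
    rw [dif_pos h2]
    congr 1
    exact Fin.ext h1.symm
  rw [← e]
  exact hs

lemma cset_content_avoid [Nonempty Q]
    (ref : Fin H → ℕ → (Fin k → Fin S) → (Fin k → Q) → Prop) (h : Fin H) (v : Fin S → Q)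
    {U : ℕ} (A : Fin n → Fin X) (B : Fin n → Fin U)
    (hs : ∀ z s, ref h z s (fun i => v (s i)) → ∀ i j, (A i : ℕ) + (B j : ℕ) ≠ z)
    (β : Fin k → Fin m) : Avoids (cset hb X ref (β, h, content v β)) (A, B) := by
  classical
  intro i j hz
  simp only [cset, mem_filter] at hz
  obtain ⟨_, s, hs1, hs2⟩ := hz
  have e : (fun i => v (s i)) = (fun i => content (b := b) v β i
      ⟨(s i : ℕ) % b, Nat.mod_lt _ hb⟩) := by
    funext i
    have h1 : (β i : ℕ) * b + (s i : ℕ) % b = s i := by
      rw [← hs1 i]; exact Nat.div_add_mod' _ _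
    have h2 : (β i : ℕ) * b + (s i : ℕ) % b < S := by rw [h1]; exact (s i).2
    simp only [content]
    rw [dif_pos h2]
    congr 1
    exact Fin.ext h1.symm
  rw [← e] at hs2
  exact hs _ s hs2 i j rfl

end

open Classical in
/-- The counting step. -/
theorem counting {n k S X H b m d : ℕ} {Q : Type} [Fintype Q] [Nonempty Q]
    (hb : 0 < b) (hX : 0 < X) (hm : ∀ s : Fin S, (s : ℕ) / b < m)
    (ref : Fin H → ℕ → (Fin k → Fin S) → (Fin k → Q) → Prop) (φ : ℝ)
    (hyp : ∀ (A : Fin n → Fin X) (B : Fin n → Fin (2 * X)), ∃ (h : Fin H) (v : Fin S → Q),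
      (∀ z s, ref h z s (fun i => v (s i)) → ∀ i j, (A i : ℕ) + (B j : ℕ) ≠ z) ∧
      φ * (2 * X) ≤ ((refuted X (ref h) v).card : ℝ))
    (hd1 : 1 ≤ d) (hd : (m : ℝ) ^ k * ((d : ℝ) - 1) < φ * (2 * X)) (hnd : 4 * (n * d) ≤ X) :
    Real.exp (3 / 8 * ((n : ℝ) ^ 2 * d / (2 * X))) ≤
      (m : ℝ) ^ k * (H * ((Fintype.card Q : ℝ) ^ b) ^ k) := by
  set E : ℝ := Real.exp (-(3 / 8 * ((n : ℝ) ^ 2 * d / (2 * X)))) with hE
  -- bad set of a configuration
  let bad : Config k H b m Q → Finset ((Fin n → Fin X) × (Fin n → Fin (2 * X))) := fun c =>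
    if h : d ≤ (cset hb X ref c).card then
      Finset.univ.filter (fun p => Avoids (Classical.choose (Finset.exists_subset_card_eq h)) p)
    else ∅
  have hbad : ∀ c, ((bad c).card : ℝ) ≤ (X : ℝ) ^ n * (2 * X) ^ n * E := by
    intro c
    by_cases h : d ≤ (cset hb X ref c).card
    · simp only [bad]
      rw [dif_pos h]
      have hsp := Classical.choose_spec (Finset.exists_subset_card_eq h)
      have := card_avoid_le (n := n) (D := Classical.choose (Finset.exists_subset_card_eq h))
        (X := X) (hsp.1.trans (cset_subset hb X ref c)) hX (by rw [hsp.2]; exact hnd)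
      rw [hsp.2] at this
      exact this
    · simp only [bad]
      rw [dif_neg h]
      simp only [Finset.card_empty, Nat.cast_zero]
      positivity
  have hcover : (Finset.univ : Finset ((Fin n → Fin X) × (Fin n → Fin (2 * X)))) ⊆
      (Finset.univ : Finset (Config k H b m Q)).biUnion bad := by
    rintro ⟨A, B⟩ -
    obtain ⟨h, v, hs, hc⟩ := hyp A B
    -- some block tuple has many refuted elements
    have hex : ∃ β : Fin k → Fin m, d ≤ (cset hb X ref (β, h, content v β)).card := by
      by_contra hcon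
      push Not at hcon
      have h1 : ((refuted X (ref h) v).card : ℝ) ≤ (m : ℝ) ^ k * ((d : ℝ) - 1) := by
        have h2 : (refuted X (ref h) v).card ≤ ∑ β : Fin k → Fin m, (d - 1) := by
          calc (refuted X (ref h) v).card
              ≤ ((Finset.univ : Finset (Fin k → Fin m)).biUnion
                (fun β => cset hb X ref (β, h, content v β))).card :=
                Finset.card_le_card (refuted_subset hb hm ref h v)
            _ ≤ ∑ β : Fin k → Fin m, (cset hb X ref (β, h, content v β)).card :=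
                Finset.card_biUnion_le
            _ ≤ ∑ β : Fin k → Fin m, (d - 1) := by
                apply Finset.sum_le_sum
                intro β _
                have := hcon β
                lia
        rw [Finset.sum_const, Finset.card_univ, smul_eq_mul, Fintype.card_fun, Fintype.card_fin,
          Fintype.card_fin] at h2
        have h3 : ((refuted X (ref h) v).card : ℝ) ≤ ((m ^ k * (d - 1) : ℕ) : ℝ) := by
          exact_mod_cast h2
        rw [Nat.cast_mul, Nat.cast_sub hd1] at h3
        push_cast at h3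
        exact h3
      linarith
    obtain ⟨β, hβ⟩ := hex
    rw [mem_biUnion]
    refine ⟨(β, h, content v β), mem_univ _, ?_⟩
    simp only [bad]
    rw [dif_pos hβ, mem_filter]
    refine ⟨mem_univ _, ?_⟩
    have hsp := Classical.choose_spec (Finset.exists_subset_card_eq hβ)
    intro i j hz
    exact cset_content_avoid hb ref h v A B hs β i j (hsp.1 hz)
  have hcount : ((X : ℝ) ^ n * (2 * X) ^ n) ≤
      ((m : ℝ) ^ k * (H * ((Fintype.card Q : ℝ) ^ b) ^ k)) * ((X : ℝ) ^ n * (2 * X) ^ n * E) := by
    have h1 := Finset.card_le_card hcover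
    rw [Finset.card_univ, Fintype.card_prod, Fintype.card_fun, Fintype.card_fun, Fintype.card_fin,
      Fintype.card_fin, Fintype.card_fin] at h1
    have h2 := h1.trans Finset.card_biUnion_le
    have h3 : ((X ^ n * (2 * X) ^ n : ℕ) : ℝ) ≤ ∑ c : Config k H b m Q, ((bad c).card : ℝ) := by
      exact_mod_cast h2
    have h4 : ∑ c : Config k H b m Q, ((bad c).card : ℝ) ≤
        ∑ c : Config k H b m Q, (X : ℝ) ^ n * (2 * X) ^ n * E :=
      Finset.sum_le_sum (fun c _ => hbad c)
    rw [Finset.sum_const, Finset.card_univ, nsmul_eq_mul, Fintype.card_prod, Fintype.card_prod,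
      Fintype.card_fun, Fintype.card_fun, Fintype.card_fun, Fintype.card_fin, Fintype.card_fin,
      Fintype.card_fin, Fintype.card_fin] at h4
    push_cast at h3 h4
    linarith
  have hpos : (0 : ℝ) < (X : ℝ) ^ n * (2 * X) ^ n := by
    have : (0 : ℝ) < X := by exact_mod_cast hX
    positivity
  have hE0 : 0 < E := Real.exp_pos _
  have h5 : 1 ≤ ((m : ℝ) ^ k * (H * ((Fintype.card Q : ℝ) ^ b) ^ k)) * E := by
    by_contra hlt
    push Not at hlt
    have := mul_lt_mul_of_pos_left hlt hpos
    linarith
  have h6 : Real.exp (3 / 8 * ((n : ℝ) ^ 2 * d / (2 * X))) * E = 1 := by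
    rw [hE, ← Real.exp_add, add_neg_cancel, Real.exp_zero]
  by_contra hlt
  push Not at hlt
  have := mul_lt_mul_of_pos_right hlt hE0
  linarith

end Pool.Agent.LocalCert
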