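import Pool.Agent.LocalCert.Core

namespace Pool.Agent.LocalCert

open Finset

lemma floor_half {x y : ℕ} (hy : 0 < y) (h : y ≤ x) : (x : ℝ) / (2 * y) ≤ ((x / y : ℕ) : ℝ) := by
  have h1 : x < (x / y + 1) * y := by
    rw [← Nat.div_lt_iff_lt_mul hy]; lia
  have h2 : 1 ≤ x / y := (Nat.one_le_div_iff hy).2 h
  have h3 : x ≤ (x / y) * (2 * y) := by
    calc x ≤ (x / y + 1) * y := h1.le
      _ ≤ (x / y + x / y) * y := Nat.mul_le_mul_right _ (by lia)
      _ = (x / y) * (2 * y) := by ring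
  rw [div_le_iff₀ (by positivity)]
  exact_mod_cast h3

/-- The quantitative bound for `S` views. -/
theorem quant {n k S X H L : ℕ} {Q : Type} [Fintype Q] [Nonempty Q]
    (hk : 1 ≤ k) (hS : 1 ≤ S) (hL : 2 * S * Fintype.card Q ≤ 2 ^ L) (hkL : 128 * (k * L) ≤ n)
    (hH : H ≤ 2 ^ (n / 128)) (h4 : 4 * n ≤ X)
    (ref : Fin H → ℕ → (Fin k → Fin S) → (Fin k → Q) → Prop) (φ : ℝ) (hφ : 0 < φ)
    (hyp : ∀ (A : Fin n → Fin X) (B : Fin n → Fin (2 * X)), ∃ (h : Fin H) (v : Fin S → Q),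
      (∀ z s, ref h z s (fun i => v (s i)) → ∀ i j, (A i : ℕ) + (B j : ℕ) ≠ z) ∧
      φ * (2 * X) ≤ ((refuted X (ref h) v).card : ℝ)) :
    φ * (n : ℝ) ^ (k + 1) ≤ (256 * (k * L) * S + n : ℝ) ^ k := by
  have hQ : 1 ≤ Fintype.card Q := Fintype.card_pos
  have hL1 : 1 ≤ L := by
    by_contra hcon
    have hL0 : L = 0 := by lia
    rw [hL0, pow_zero] at hL
    have : 2 * 1 * 1 ≤ 2 * S * Fintype.card Q := by gcongr
    lia
  have hkL1 : 1 ≤ k * L := Nat.mul_pos hk hL1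
  have hn : 0 < n := by lia
  have hX : 0 < X := by lia
  set b : ℕ := n / (128 * (k * L)) with hbdef
  have hb : 0 < b := Nat.div_pos hkL (by lia)
  set m : ℕ := S / b + 1 with hmdef
  have hm : ∀ s : Fin S, (s : ℕ) / b < m := by
    intro s
    have := Nat.div_le_div_right (c := b) s.2.le
    lia
  have hnR : (0 : ℝ) < n := by exact_mod_cast hn
  have hXR : (0 : ℝ) < X := by exact_mod_cast hX
  have hmR : (0 : ℝ) < m := by rw [hmdef]; positivity
  have hmk : (0 : ℝ) < (m : ℝ) ^ k := by positivity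
  set x : ℝ := φ * (2 * X) / (m : ℝ) ^ k with hx
  have hx0 : 0 < x := by rw [hx]; positivity
  set d : ℕ := min ⌈x⌉₊ (X / (4 * n)) with hd
  have hq1 : 1 ≤ X / (4 * n) := (Nat.one_le_div_iff (by lia)).2 h4
  have hd1 : 1 ≤ d := by
    rw [hd]
    apply le_min _ hq1
    exact Nat.one_le_ceil_iff.2 hx0
  have hd2 : (m : ℝ) ^ k * ((d : ℝ) - 1) < φ * (2 * X) := by
    have h1 : (d : ℝ) ≤ (⌈x⌉₊ : ℝ) := by exact_mod_cast min_le_left _ _
    have h2 := Nat.ceil_lt_add_one hx0.le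
    have h3 : (d : ℝ) - 1 < x := by linarith
    calc (m : ℝ) ^ k * ((d : ℝ) - 1) < (m : ℝ) ^ k * x := mul_lt_mul_of_pos_left h3 hmk
      _ = φ * (2 * X) := by rw [hx]; field_simp
  have hd3 : 4 * (n * d) ≤ X := by
    have h1 : d ≤ X / (4 * n) := min_le_right _ _
    calc 4 * (n * d) = d * (4 * n) := by ring
      _ ≤ (X / (4 * n)) * (4 * n) := Nat.mul_le_mul_right _ h1
      _ ≤ X := Nat.div_mul_le_self _ _
  have hc := counting hb hX hm ref φ hyp hd1 hd2 hd3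
  -- bound the number of configurations
  have hbL : b * (k * L) ≤ n / 128 := by
    rw [Nat.le_div_iff_mul_le (by norm_num)]
    calc b * (k * L) * 128 = b * (128 * (k * L)) := by ring
      _ ≤ n := Nat.div_mul_le_self _ _
  have hcfg : m ^ k * (H * ((Fintype.card Q) ^ b) ^ k) ≤ 2 ^ (n / 128 + n / 128) := by
    have h1 : m ≤ 2 * S := by
      have : S / b ≤ S := Nat.div_le_self _ _
      lia
    have h2 : m ^ k ≤ ((2 * S) ^ b) ^ k := by
      apply Nat.pow_le_pow_left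
      calc m ≤ 2 * S := h1
        _ = (2 * S) ^ 1 := (pow_one _).symm
        _ ≤ (2 * S) ^ b := Nat.pow_le_pow_right (by lia) hb
    calc m ^ k * (H * ((Fintype.card Q) ^ b) ^ k)
        ≤ ((2 * S) ^ b) ^ k * (2 ^ (n / 128) * ((Fintype.card Q) ^ b) ^ k) := by gcongr
      _ = 2 ^ (n / 128) * ((2 * S * Fintype.card Q) ^ b) ^ k := by
          rw [mul_pow (2 * S) (Fintype.card Q), mul_pow]; ring
      _ ≤ 2 ^ (n / 128) * (((2 ^ L) ^ b)) ^ k := by gcongr
      _ = 2 ^ (n / 128 + b * (k * L)) := by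
          rw [← pow_mul, ← pow_mul, ← pow_add]
          congr 1
          ring
      _ ≤ 2 ^ (n / 128 + n / 128) := Nat.pow_le_pow_right (by norm_num) (by lia)
  have hlog : 3 / 8 * ((n : ℝ) ^ 2 * d / (2 * X)) ≤ (n : ℝ) / 64 * Real.log 2 := by
    have h1 : (m : ℝ) ^ k * (H * ((Fintype.card Q : ℝ) ^ b) ^ k) ≤
        (2 : ℝ) ^ (n / 128 + n / 128) := by exact_mod_cast hcfg
    have h2 := Real.log_le_log (Real.exp_pos _) (hc.trans h1)
    rw [Real.log_exp, Real.log_pow] at h2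
    have h3 : ((n / 128 + n / 128 : ℕ) : ℝ) ≤ (n : ℝ) / 64 := by
      have h4 : (n / 128) * 128 ≤ n := Nat.div_mul_le_self _ _
      have h5 : (((n / 128 : ℕ) : ℝ)) * 128 ≤ n := by exact_mod_cast h4
      push_cast
      linarith
    have h6 : 0 ≤ Real.log 2 := Real.log_nonneg (by norm_num)
    exact h2.trans (mul_le_mul_of_nonneg_right h3 h6)
  have hlog2 := Real.log_two_lt_d9
  have hkey : (n : ℝ) * d / (2 * X) < 1 / 20 := by
    by_contra hcon
    push Not at hcon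
    have h1 : (n : ℝ) ^ 2 * d / (2 * X) = n * ((n : ℝ) * d / (2 * X)) := by ring
    rw [h1] at hlog
    have h2 : (n : ℝ) * (1 / 20) ≤ n * ((n : ℝ) * d / (2 * X)) :=
      mul_le_mul_of_nonneg_left hcon hnR.le
    nlinarith
  -- the minimum is the first term
  have hdx : d = ⌈x⌉₊ := by
    rcases min_choice ⌈x⌉₊ (X / (4 * n)) with h | h
    · rw [hd, h]
    · exfalso
      have h1 : (X : ℝ) / (2 * ((4 * n : ℕ) : ℝ)) ≤ ((X / (4 * n) : ℕ) : ℝ) :=
        floor_half (by lia) h4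
      have h2 : (d : ℝ) = ((X / (4 * n) : ℕ) : ℝ) := by rw [hd, h]
      rw [h2] at hkey
      have h3 : (n : ℝ) * ((X : ℝ) / (2 * ((4 * n : ℕ) : ℝ))) / (2 * X) = 1 / 16 := by
        push_cast
        field_simp
        norm_num
      have h4' : (n : ℝ) * ((X : ℝ) / (2 * ((4 * n : ℕ) : ℝ))) / (2 * X) ≤
          (n : ℝ) * ((X / (4 * n) : ℕ) : ℝ) / (2 * X) := by
        gcongr
      linarith
  have hφn : φ * n ≤ (m : ℝ) ^ k := by
    have h1 : x ≤ d := by rw [hdx]; exact Nat.le_ceil x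
    have h2 : (n : ℝ) * x / (2 * X) ≤ (n : ℝ) * d / (2 * X) := by gcongr
    have h3 : (n : ℝ) * x / (2 * X) = φ * n / (m : ℝ) ^ k := by
      rw [hx]
      field_simp
    rw [h3] at h2
    have h4 : φ * n / (m : ℝ) ^ k ≤ 1 := by linarith
    rwa [div_le_one hmk] at h4
  -- bound on m
  have hmle : (m : ℝ) ≤ (256 * (k * L) * S + n) / n := by
    have h1 : (n : ℝ) / (2 * ((128 * (k * L) : ℕ) : ℝ)) ≤ (b : ℝ) := floor_half (by lia) hkL
    have hbR : (0 : ℝ) < b := by exact_mod_cast hb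
    have hkLR : (0 : ℝ) < k * L := by exact_mod_cast hkL1
    have h2 : ((S / b : ℕ) : ℝ) ≤ (S : ℝ) / b := Nat.cast_div_le
    have h3 : (S : ℝ) / b ≤ 256 * (k * L) * S / n := by
      rw [div_le_div_iff₀ hbR hnR]
      push_cast at h1
      rw [div_le_iff₀ (by positivity)] at h1
      have hS0 : (0 : ℝ) ≤ S := by positivity
      calc (S : ℝ) * n ≤ S * (b * (2 * (128 * (k * L)))) := mul_le_mul_of_nonneg_left h1 hS0
        _ = 256 * (k * L) * S * b := by ring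
    rw [hmdef]
    push_cast
    rw [add_div, div_self hnR.ne']
    linarith
  calc φ * (n : ℝ) ^ (k + 1) = φ * n * (n : ℝ) ^ k := by ring
    _ ≤ (m : ℝ) ^ k * (n : ℝ) ^ k := by gcongr
    _ ≤ ((256 * (k * L) * S + n) / n) ^ k * (n : ℝ) ^ k := by gcongr
    _ = (256 * (k * L) * S + n : ℝ) ^ k := by
        rw [← mul_pow, div_mul_cancel₀ _ hnR.ne']

end Pool.Agent.LocalCert
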